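import Mathlib

/-!
Idempotents in Banach algebras: a continuous retraction of a neighbourhood of the idempotents,
extension of idempotent fields from closed sets, and local triviality.
-/

namespace Pool.Agent.MP_826def_gt.K82

open Set Filter Topology

noncomputable section

section Retraction

variable {A : Type*} [NormedRing A]

/-- One step `a ↦ 3 a ^ 2 - 2 a ^ 3` of the Newton iteration. -/
def step (a : A) : A := a + ((a * a - a) - 2 • (a * (a * a - a)))

/-- The limit of the Newton iteration. -/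
def retr (a : A) : A := limUnder atTop fun k : ℕ => step^[k] a

theorem step_defect (a : A) : step a * step a - step a =
    4 • ((a * a - a) * ((a * a - a) * (a * a - a))) - 3 • ((a * a - a) * (a * a - a)) := by
  unfold step
  noncomm_ring

theorem continuous_step : Continuous (step : A → A) := by
  unfold step
  fun_prop

theorem norm_step_defect {a : A} (h : ‖a * a - a‖ ≤ 1 / 8) :
    ‖step a * step a - step a‖ ≤ ‖a * a - a‖ / 2 := by
  rw [step_defect]
  set n := a * a - a
  have h0 := norm_nonneg n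
  have h1 : ‖n * n‖ ≤ ‖n‖ * ‖n‖ := norm_mul_le _ _
  have h2 : ‖n * (n * n)‖ ≤ ‖n‖ * (‖n‖ * ‖n‖) :=
    (norm_mul_le _ _).trans (mul_le_mul_of_nonneg_left h1 h0)
  have h3 : ‖4 • (n * (n * n))‖ ≤ (4 : ℕ) * ‖n * (n * n)‖ := norm_nsmul_le
  have h4 : ‖3 • (n * n)‖ ≤ (3 : ℕ) * ‖n * n‖ := norm_nsmul_le
  have h5 := norm_sub_le (4 • (n * (n * n))) (3 • (n * n))
  have h6 : ‖n‖ * ‖n‖ ≤ ‖n‖ * (1 / 8) := mul_le_mul_of_nonneg_left h h0
  have h7 : ‖n‖ * (‖n‖ * ‖n‖) ≤ (1 / 8) * (‖n‖ * (1 / 8)) :=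
    mul_le_mul h h6 (mul_nonneg h0 h0) (by norm_num)
  push_cast at h3 h4
  nlinarith

theorem norm_step_sub (a : A) : ‖step a - a‖ ≤ (1 + 2 * ‖a‖) * ‖a * a - a‖ := by
  have e : step a - a = (a * a - a) - 2 • (a * (a * a - a)) := by unfold step; abel
  rw [e]
  set n := a * a - a
  have h1 : ‖a * n‖ ≤ ‖a‖ * ‖n‖ := norm_mul_le _ _
  have h3 : ‖2 • (a * n)‖ ≤ (2 : ℕ) * ‖a * n‖ := norm_nsmul_le
  have h5 := norm_sub_le n (2 • (a * n))
  push_cast at h3
  nlinarith

theorem iter_bound {a : A} (h : ‖a * a - a‖ ≤ 1 / 8) (k : ℕ) :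
    ‖step^[k] a * step^[k] a - step^[k] a‖ ≤ ‖a * a - a‖ / 2 ^ k ∧
      1 + 2 * ‖step^[k] a‖ ≤ (1 + 2 * ‖a‖) * (2 - 1 / 2 ^ k) := by
  induction k with
  | zero => constructor <;> norm_num
  | succ k ih =>
    obtain ⟨h1, h2⟩ := ih
    rw [Function.iterate_succ_apply']
    set b := step^[k] a
    have ht : (0 : ℝ) < 1 / 2 ^ k := by positivity
    have ht1 : (1 : ℝ) / 2 ^ k ≤ 1 := by
      rw [div_le_one (by positivity)]; exact one_le_pow₀ (by norm_num)
    have h3 : ‖b * b - b‖ ≤ 1 / 8 * (1 / 2 ^ k) := by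
      refine h1.trans ?_
      rw [div_eq_mul_one_div]
      exact mul_le_mul_of_nonneg_right h ht.le
    have h4 : ‖b * b - b‖ ≤ 1 / 8 := by nlinarith
    refine ⟨(norm_step_defect h4).trans ?_, ?_⟩
    · rw [pow_succ, ← div_div]; linarith
    · have h5 := norm_step_sub b
      have h6 : ‖step b‖ ≤ ‖b‖ + ‖step b - b‖ := by
        simpa using norm_add_le b (step b - b)
      have e : (1 : ℝ) / 2 ^ (k + 1) = 1 / 2 ^ k / 2 := by rw [pow_succ, ← div_div]
      rw [e]
      set t : ℝ := 1 / 2 ^ k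
      have hb := norm_nonneg b
      have ha := norm_nonneg a
      have h7 : (1 + 2 * ‖b‖) * ‖b * b - b‖ ≤ (1 + 2 * ‖b‖) * (1 / 8 * t) :=
        mul_le_mul_of_nonneg_left h3 (by positivity)
      have h8 : (1 + 2 * ‖b‖) * (1 + t / 4) ≤ (1 + 2 * ‖a‖) * (2 - t) * (1 + t / 4) :=
        mul_le_mul_of_nonneg_right h2 (by positivity)
      have h9 : (1 + 2 * ‖a‖) * ((2 - t) * (1 + t / 4)) ≤ (1 + 2 * ‖a‖) * (2 - t / 2) :=
        mul_le_mul_of_nonneg_left (by nlinarith) (by positivity)
      nlinarith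

theorem iter_dist {a : A} (h : ‖a * a - a‖ ≤ 1 / 8) (k : ℕ) :
    dist (step^[k] a) (step^[k + 1] a) ≤ 4 * (1 + 2 * ‖a‖) * ‖a * a - a‖ / 2 / 2 ^ k := by
  obtain ⟨h1, h2⟩ := iter_bound h k
  rw [Function.iterate_succ_apply', dist_comm, dist_eq_norm]
  refine (norm_step_sub _).trans ?_
  have ha := norm_nonneg a
  have ht : (0 : ℝ) < 1 / 2 ^ k := by positivity
  have h3 : 1 + 2 * ‖step^[k] a‖ ≤ (1 + 2 * ‖a‖) * 2 :=
    h2.trans (mul_le_mul_of_nonneg_left (by linarith) (by positivity))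
  refine (mul_le_mul h3 h1 (norm_nonneg _) (by positivity)).trans (le_of_eq ?_)
  ring

theorem step_of_idem {e : A} (h : e * e = e) : step e = e := by
  simp [step, h]

theorem retr_of_idem {e : A} (h : e * e = e) : retr e = e := by
  have : (fun k : ℕ => step^[k] e) = fun _ => e :=
    funext fun k => Function.iterate_fixed (step_of_idem h) k
  rw [retr, this]
  exact tendsto_const_nhds.limUnder_eq

variable [CompleteSpace A]

theorem tendsto_retr {a : A} (h : ‖a * a - a‖ ≤ 1 / 8) :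
    Tendsto (fun k : ℕ => step^[k] a) atTop (𝓝 (retr a)) :=
  (cauchySeq_of_le_geometric_two (iter_dist h)).tendsto_limUnder

theorem dist_retr {a : A} (h : ‖a * a - a‖ ≤ 1 / 8) (k : ℕ) :
    dist (step^[k] a) (retr a) ≤ 4 * (1 + 2 * ‖a‖) * ‖a * a - a‖ / 2 ^ k :=
  dist_le_of_le_geometric_two_of_tendsto (iter_dist h) (tendsto_retr h) k

theorem norm_retr_sub {a : A} (h : ‖a * a - a‖ ≤ 1 / 8) :
    ‖retr a - a‖ ≤ 4 * (1 + 2 * ‖a‖) * ‖a * a - a‖ := by
  simpa [dist_comm a, dist_eq_norm] using dist_retr h 0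

theorem retr_idem {a : A} (h : ‖a * a - a‖ ≤ 1 / 8) : retr a * retr a = retr a := by
  have h1 := tendsto_retr h
  have h2 : Tendsto (fun k : ℕ => ‖step^[k] a * step^[k] a - step^[k] a‖) atTop
      (𝓝 ‖retr a * retr a - retr a‖) := ((h1.mul h1).sub h1).norm
  have h3 : Tendsto (fun k : ℕ => ‖a * a - a‖ / 2 ^ k) atTop (𝓝 0) :=
    tendsto_const_nhds.div_atTop (tendsto_pow_atTop_atTop_of_one_lt (by norm_num))
  have := le_of_tendsto_of_tendsto' h2 h3 fun k => (iter_bound h k).1
  exact sub_eq_zero.1 (norm_le_zero_iff.1 this)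

/-- The retraction stays in every closed set that is stable under the Newton step. -/
theorem retr_mem {T : Set A} (hT : IsClosed T) (hs : ∀ x ∈ T, step x ∈ T) {a : A}
    (h : ‖a * a - a‖ ≤ 1 / 8) (ha : a ∈ T) : retr a ∈ T :=
  hT.mem_of_tendsto (tendsto_retr h) (Eventually.of_forall fun k => by
    induction k with
    | zero => exact ha
    | succ k ih => rw [Function.iterate_succ_apply']; exact hs _ ih)

theorem retr_commute {a b : A} (h : ‖a * a - a‖ ≤ 1 / 8) (hab : Commute a b) :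
    Commute (retr a) b :=
  retr_mem (T := {x | x * b = b * x}) (isClosed_eq (by fun_prop) (by fun_prop))
    (fun x hx => by
      have hx : Commute x b := hx
      have hn : Commute (x * x - x) b := (hx.mul_left hx).sub_left hx
      exact (hx.add_left (hn.sub_left ((hx.mul_left hn).smul_left 2)) :)) h hab

/-- If `q a = a` then `q (retr a) = retr a`. -/
theorem mul_retr {a q : A} (h : ‖a * a - a‖ ≤ 1 / 8) (hq : q * a = a) : q * retr a = retr a :=
  retr_mem (T := {x | q * x = x}) (isClosed_eq (by fun_prop) (by fun_prop))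
    (fun x hx => by
      have hx : q * x = x := hx
      show q * step x = step x
      simp only [step, mul_add, mul_sub, mul_smul_comm, ← mul_assoc, hx]) h hq

/-- If `a q = a` then `(retr a) q = retr a`. -/
theorem retr_mul {a q : A} (h : ‖a * a - a‖ ≤ 1 / 8) (hq : a * q = a) : retr a * q = retr a :=
  retr_mem (T := {x | x * q = x}) (isClosed_eq (by fun_prop) (by fun_prop))
    (fun x hx => by
      have hx : x * q = x := hx
      show step x * q = step x
      simp only [step, add_mul, sub_mul, smul_mul_assoc, mul_sub, mul_assoc, hx]) h hq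

/-- Naturality under continuous ring maps, unital or not. -/
theorem map_retr {B F : Type*} [NormedRing B] [CompleteSpace B] [FunLike F A B]
    [NonUnitalRingHomClass F A B] (φ : F) (hφ : Continuous φ) {a : A} (h : ‖a * a - a‖ ≤ 1 / 8)
    (h' : ‖φ a * φ a - φ a‖ ≤ 1 / 8) : φ (retr a) = retr (φ a) := by
  have e : ∀ k : ℕ, φ (step^[k] a) = step^[k] (φ a) := fun k => by
    induction k with
    | zero => rfl
    | succ k ih =>
      rw [Function.iterate_succ_apply', Function.iterate_succ_apply', ← ih]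
      simp only [step, map_add, map_sub, map_mul, map_nsmul]
  exact tendsto_nhds_unique (((hφ.tendsto _).comp (tendsto_retr h)).congr e) (tendsto_retr h')

theorem continuousOn_retr : ContinuousOn (retr : A → A) {a | ‖a * a - a‖ ≤ 1 / 8} := by
  refine continuousOn_of_locally_uniform_approx_of_continuousWithinAt fun x _ u hu => ?_
  obtain ⟨ε, hε, hεu⟩ := Metric.mem_uniformity_dist.1 hu
  have h3 : Tendsto (fun k : ℕ => 4 * (1 + 2 * (‖x‖ + 1)) * (1 / 8) / 2 ^ k) atTop (𝓝 (0 : ℝ)) :=
    tendsto_const_nhds.div_atTop (tendsto_pow_atTop_atTop_of_one_lt (by norm_num))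
  obtain ⟨k, hk⟩ := (h3.eventually (gt_mem_nhds hε)).exists
  refine ⟨{a | ‖a * a - a‖ ≤ 1 / 8} ∩ {a | ‖a‖ < ‖x‖ + 1}, inter_mem_nhdsWithin _
    ((isOpen_lt continuous_norm continuous_const).mem_nhds (by simp)), step^[k],
    (continuous_step.iterate k).continuousWithinAt, fun y hy => hεu ?_⟩
  rw [dist_comm]
  refine (dist_retr hy.1 k).trans_lt (lt_of_le_of_lt ?_ hk)
  have h1 : ‖y‖ < ‖x‖ + 1 := hy.2
  have h2 : ‖y * y - y‖ ≤ 1 / 8 := hy.1
  gcongr

end Retraction

section Extension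

/-- Tietze extension for functions into a finite dimensional complex space. -/
theorem tietze {X E : Type*} [TopologicalSpace X] [NormalSpace X] [NormedAddCommGroup E]
    [NormedSpace ℂ E] [FiniteDimensional ℂ E] {Z : Set X} (hZ : IsClosed Z) {f : X → E}
    (hf : ContinuousOn f Z) : ∃ g : X → E, Continuous g ∧ EqOn g f Z := by
  obtain ⟨g, hg⟩ := ContinuousMap.exists_restrict_eq hZ
    (⟨Z.domRestrict f, hf.domRestrict⟩ : C(Z, E))
  exact ⟨g, g.continuous, fun x hx => DFunLike.congr_fun hg ⟨x, hx⟩⟩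

variable {X W : Type*} [TopologicalSpace X] [NormedAddCommGroup W] [NormedSpace ℂ W]
  [FiniteDimensional ℂ W]

/-- An idempotent field on a closed set extends to an open neighbourhood. -/
theorem extend_idem [NormalSpace X] {Z : Set X} (hZ : IsClosed Z) {p : X → W →L[ℂ] W}
    (hp : ContinuousOn p Z) (hi : ∀ x ∈ Z, p x * p x = p x) :
    ∃ (O : Set X) (q : X → W →L[ℂ] W), IsOpen O ∧ Z ⊆ O ∧ ContinuousOn q O ∧
      (∀ x ∈ O, q x * q x = q x) ∧ EqOn q p Z := by
  have : CompleteSpace W := FiniteDimensional.complete ℂ W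
  obtain ⟨a, ha, hap⟩ := tietze hZ hp
  refine ⟨{x | ‖a x * a x - a x‖ < 1 / 8}, fun x => retr (a x),
    isOpen_lt (by fun_prop) continuous_const, fun x hx => ?_,
    continuousOn_retr.comp ha.continuousOn fun x hx =>
      show ‖a x * a x - a x‖ ≤ 1 / 8 from le_of_lt hx,
    fun x hx => retr_idem (le_of_lt hx), fun x hx => ?_⟩
  · show ‖a x * a x - a x‖ < 1 / 8
    rw [hap hx, hi x hx, sub_self, norm_zero]; norm_num
  · show retr (a x) = p x
    rw [hap hx, retr_of_idem (hi x hx)]

/-- An idempotent field with a section on a closed set extends to an open neighbourhood. -/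
theorem extend_idem_sec [NormalSpace X] {Z : Set X} (hZ : IsClosed Z) {p : X → W →L[ℂ] W}
    {s : X → W} (hp : ContinuousOn p Z) (hs : ContinuousOn s Z) (hi : ∀ x ∈ Z, p x * p x = p x)
    (hps : ∀ x ∈ Z, p x (s x) = s x) :
    ∃ (O : Set X) (q : X → W →L[ℂ] W) (t : X → W), IsOpen O ∧ Z ⊆ O ∧ ContinuousOn q O ∧
      ContinuousOn t O ∧ (∀ x ∈ O, q x * q x = q x) ∧ (∀ x ∈ O, q x (t x) = t x) ∧
      EqOn q p Z ∧ EqOn t s Z := by
  obtain ⟨O, q, hO, hZO, hq, hqi, hqp⟩ := extend_idem hZ hp hi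
  obtain ⟨b, hb, hbs⟩ := tietze hZ hs
  refine ⟨O, q, fun x => q x (b x), hO, hZO, hq, hq.clm_apply hb.continuousOn, hqi,
    fun x hx => ?_, hqp, fun x hx => ?_⟩
  · exact DFunLike.congr_fun (hqi x hx) (b x)
  · show q x (b x) = s x
    rw [hqp hx, hbs hx, hps x hx]

/-- Tietze extension inside a compact subset of a Hausdorff space. -/
theorem tietze_compact {X E : Type*} [TopologicalSpace X] [T2Space X] [NormedAddCommGroup E]
    [NormedSpace ℂ E] [FiniteDimensional ℂ E] {K Z : Set X} (hK : IsCompact K) (hZ : IsClosed Z)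
    {f : X → E} (hf : ContinuousOn f (Z ∩ K)) :
    ∃ g : X → E, ContinuousOn g K ∧ EqOn g f (Z ∩ K) := by
  classical
  have : CompactSpace K := isCompact_iff_compactSpace.1 hK
  obtain ⟨g, hg, hgf⟩ := tietze (X := K) (f := fun x => f x.1)
    (hZ.preimage continuous_subtype_val)
    (hf.comp continuous_subtype_val.continuousOn fun x hx => ⟨hx, x.2⟩)
  refine ⟨fun x => if h : x ∈ K then g ⟨x, h⟩ else 0, ?_, fun x hx => ?_⟩
  · rw [continuousOn_iff_continuous_domRestrict]
    exact hg.congr fun x => by simp [Set.domRestrict]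
  · exact (dif_pos hx.2).trans (hgf (show (⟨x, hx.2⟩ : K) ∈ Subtype.val ⁻¹' Z from hx.1))

/-- An idempotent field with a section on the trace of a closed set on an open set extends to an
open neighbourhood of any compact subset. -/
theorem extend_near_compact [T2Space X] [LocallyCompactSpace X] {Z O A : Set X} (hZ : IsClosed Z)
    (hO : IsOpen O) (hA : IsCompact A) (hAZ : A ⊆ Z) (hAO : A ⊆ O) {p : X → W →L[ℂ] W}
    {s : X → W} (hp : ContinuousOn p (Z ∩ O)) (hs : ContinuousOn s (Z ∩ O))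
    (hi : ∀ x ∈ Z ∩ O, p x ∘L p x = p x) (hps : ∀ x ∈ Z ∩ O, p x (s x) = s x) :
    ∃ (O' : Set X) (q : X → W →L[ℂ] W) (t : X → W), IsOpen O' ∧ A ⊆ O' ∧ O' ⊆ O ∧
      ContinuousOn q O' ∧ ContinuousOn t O' ∧ (∀ x ∈ O', q x ∘L q x = q x) ∧
      (∀ x ∈ O', q x (t x) = t x) ∧ EqOn q p (Z ∩ O') ∧ EqOn t s (Z ∩ O') := by
  have : CompleteSpace W := FiniteDimensional.complete ℂ W
  obtain ⟨K, hK, hAK, hKO⟩ := exists_compact_between hA hO hAO
  have hsub : Z ∩ K ⊆ Z ∩ O := inter_subset_inter_right _ hKO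
  obtain ⟨a, ha, hap⟩ := tietze_compact hK hZ (hp.mono hsub)
  obtain ⟨b, hb, hbs⟩ := tietze_compact hK hZ (hs.mono hsub)
  have ha' := ha.mono (interior_subset (s := K))
  have hb' := hb.mono (interior_subset (s := K))
  have hq : ContinuousOn (fun x => retr (a x))
      (interior K ∩ (fun x => ‖a x * a x - a x‖) ⁻¹' Iio (1 / 8)) :=
    continuousOn_retr.comp (ha'.mono inter_subset_left) fun x hx =>
      show ‖a x * a x - a x‖ ≤ 1 / 8 from le_of_lt hx.2
  have hqi : ∀ x ∈ interior K ∩ (fun x => ‖a x * a x - a x‖) ⁻¹' Iio (1 / 8),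
      retr (a x) ∘L retr (a x) = retr (a x) := fun x hx => retr_idem (le_of_lt hx.2)
  have hqp : EqOn (fun x => retr (a x)) p
      (Z ∩ (interior K ∩ (fun x => ‖a x * a x - a x‖) ⁻¹' Iio (1 / 8))) := fun x hx => by
    have hx' : x ∈ Z ∩ K := ⟨hx.1, interior_subset hx.2.1⟩
    show retr (a x) = p x
    rw [hap hx', retr_of_idem (hi x (hsub hx'))]
  refine ⟨_, fun x => retr (a x), fun x => retr (a x) (b x),
    ((ha'.mul ha').sub ha').norm.isOpen_inter_preimage isOpen_interior isOpen_Iio,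
    fun x hx => ⟨hAK hx, ?_⟩, fun x hx => hKO (interior_subset hx.1), hq,
    hq.clm_apply (hb'.mono inter_subset_left), hqi,
    fun x hx => DFunLike.congr_fun (hqi x hx) (b x), hqp, fun x hx => ?_⟩
  · have hx' : x ∈ Z ∩ K := ⟨hAZ hx, interior_subset (hAK hx)⟩
    have e : p x * p x = p x := hi x (hsub hx')
    show ‖a x * a x - a x‖ < 1 / 8
    rw [hap hx', e, sub_self, norm_zero]; norm_num
  · have hx' : x ∈ Z ∩ K := ⟨hx.1, interior_subset hx.2.1⟩
    have e : retr (a x) = p x := hqp hx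
    show retr (a x) (b x) = s x
    rw [e, hbs hx', hps x (hsub hx')]

end Extension

section Local

variable {A : Type*} [NormedRing A]

/-- The element `p q + (1 - p) (1 - q)`. -/
def link (p q : A) : A := 1 - p - q + 2 • (p * q)

theorem link_self {p : A} (h : p * p = p) : link p p = 1 := by
  rw [link, h]; abel

theorem mul_link {p q : A} (hp : p * p = p) (hq : q * q = q) : p * link p q = link p q * q := by
  simp only [link, mul_add, mul_sub, add_mul, sub_mul, mul_smul_comm, smul_mul_assoc, mul_one,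
    one_mul, ← mul_assoc, hp]
  rw [mul_assoc p q q, hq]
  abel

theorem continuous_link : Continuous fun z : A × A => link z.1 z.2 := by
  unfold link
  fun_prop

/-- Local triviality of a continuous idempotent field. -/
theorem local_triv [CompleteSpace A] {X : Type*} [TopologicalSpace X] {O : Set X} (hO : IsOpen O)
    {p : X → A} (hp : ContinuousOn p O) (hi : ∀ x ∈ O, p x * p x = p x) {x₀ : X} (hx : x₀ ∈ O) :
    ∃ (N : Set X) (u v : X → A), IsOpen N ∧ x₀ ∈ N ∧ N ⊆ O ∧ ContinuousOn u N ∧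
      ContinuousOn v N ∧ u x₀ = 1 ∧ v x₀ = 1 ∧
      ∀ x ∈ N, u x * v x = 1 ∧ v x * u x = 1 ∧ p x * u x = u x * p x₀ ∧ v x * p x = p x₀ * v x := by
  have hu : ContinuousOn (fun x => link (p x) (p x₀)) O :=
    continuous_link.comp_continuousOn (hp.prodMk continuousOn_const)
  have h1 : link (p x₀) (p x₀) = 1 := link_self (hi _ hx)
  refine ⟨O ∩ (fun x => link (p x) (p x₀)) ⁻¹' {y | IsUnit y}, fun x => link (p x) (p x₀),
    fun x => Ring.inverse (link (p x) (p x₀)), hu.isOpen_inter_preimage hO Units.isOpen,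
    ⟨hx, show IsUnit (link (p x₀) (p x₀)) from h1 ▸ isUnit_one⟩, inter_subset_left, hu.mono inter_subset_left, ?_, h1,
    by simp [h1], fun x hx' => ?_⟩
  · intro x hx'
    obtain ⟨y, hy⟩ : IsUnit (link (p x) (p x₀)) := hx'.2
    exact ContinuousAt.comp_continuousWithinAt (f := fun x => link (p x) (p x₀))
      (hy ▸ NormedRing.inverse_continuousAt y) ((hu x hx'.1).mono inter_subset_left)
  · have hy : IsUnit (link (p x) (p x₀)) := hx'.2
    have a := Ring.mul_inverse_cancel _ hy
    have b := Ring.inverse_mul_cancel _ hy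
    have c := mul_link (hi x hx'.1) (hi x₀ hx)
    refine ⟨a, b, c, ?_⟩
    calc Ring.inverse (link (p x) (p x₀)) * p x
        = Ring.inverse (link (p x) (p x₀)) * (p x * link (p x) (p x₀)) *
          Ring.inverse (link (p x) (p x₀)) := by
          rw [mul_assoc, mul_assoc, a, mul_one]
      _ = _ := by rw [c, ← mul_assoc, b, one_mul]

variable {W : Type*} [NormedAddCommGroup W] [NormedSpace ℂ W] [FiniteDimensional ℂ W]

/-- The trace of an idempotent is its rank. -/
theorem trace_idem {p : W →L[ℂ] W} (h : p * p = p) :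
    LinearMap.trace ℂ W (p : W →ₗ[ℂ] W) =
      Module.finrank ℂ (LinearMap.range (p : W →ₗ[ℂ] W)) := by
  refine LinearMap.IsProj.trace ⟨fun x => ⟨x, rfl⟩, ?_⟩
  rintro _ ⟨x, rfl⟩
  exact DFunLike.congr_fun h x

theorem continuous_trace : Continuous fun p : W →L[ℂ] W => LinearMap.trace ℂ W (p : W →ₗ[ℂ] W) :=
  LinearMap.continuous_of_finiteDimensional
    ((LinearMap.trace ℂ W).comp (ContinuousLinearMap.coeLM ℂ))

/-- The rank of a continuous idempotent field is continuous. -/
theorem continuousOn_rank {X : Type*} [TopologicalSpace X] {O : Set X} {p : X → W →L[ℂ] W}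
    (hp : ContinuousOn p O) (hi : ∀ x ∈ O, p x * p x = p x) :
    ContinuousOn (fun x => Module.finrank ℂ (LinearMap.range (p x : W →ₗ[ℂ] W))) O := by
  have e : IsInducing (Nat.cast : ℕ → ℂ) :=
    (Complex.isometry_ofReal.isEmbedding.comp Nat.isClosedEmbedding_coe_real.isEmbedding).isInducing
  rw [e.continuousOn_iff]
  exact (continuous_trace.comp_continuousOn hp).congr fun x hx => (trace_idem (hi x hx)).symm

/-- The sets cut out by a condition on the rank are open. -/
theorem isOpen_rank {X : Type*} [TopologicalSpace X] {O : Set X} (hO : IsOpen O)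
    {p : X → W →L[ℂ] W} (hp : ContinuousOn p O) (hi : ∀ x ∈ O, p x * p x = p x) (P : ℕ → Prop) :
    IsOpen {x | x ∈ O ∧ P (Module.finrank ℂ (LinearMap.range (p x : W →ₗ[ℂ] W)))} :=
  (continuousOn_rank hp hi).isOpen_inter_preimage hO (isOpen_discrete {n | P n})

end Local

end

end Pool.Agent.MP_826def_gt.K82
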