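import Pool.Agent.MP_826def_gt.MU.Spec

/-!
The long exact sequence of a closed subspace and its open complement.
-/

namespace Pool.Agent.MP_826def_gt.K82

open Set Topology MU NNReal

noncomputable section

variable {X Y U : Type} [TopologicalSpace X] [TopologicalSpace Y] [TopologicalSpace U]

/-- The exponential map onto the positive half line. -/
def ex : C(ℝ, ℝ≥0) := ⟨fun t => ⟨Real.exp t, (Real.exp_pos t).le⟩, Real.continuous_exp.subtype_mk _⟩

theorem ex_ne (t : ℝ) : ex t ≠ 0 := fun e => (Real.exp_pos t).ne' (congrArg NNReal.toReal e)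

theorem ex_surj {s : ℝ≥0} (hs : s ≠ 0) : ∃ t, ex t = s :=
  ⟨Real.log s, NNReal.eq (Real.exp_log (NNReal.coe_pos.2 (pos_iff_ne_zero.2 hs)))⟩

theorem ex_open : IsOpenEmbedding ex := by
  refine ⟨IsEmbedding.of_comp ex.continuous NNReal.continuous_coe
    Real.isOpenEmbedding_exp.isEmbedding, ?_⟩
  have : range ex = {0}ᶜ := Set.ext fun s => ⟨by rintro ⟨t, rfl⟩; exact ex_ne t, ex_surj⟩
  rw [this]
  exact isOpen_compl_singleton

/-- The mapping cone. -/
def Cone (i : C(Y, X)) : Type := {z : X × ℝ≥0 // z.2 = 0 ∨ z.1 ∈ range i}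

instance (i : C(Y, X)) : TopologicalSpace (Cone i) := instTopologicalSpaceSubtype

def cv (i : C(Y, X)) : C(Cone i, X × ℝ≥0) := ⟨Subtype.val, continuous_subtype_val⟩

def c0 (i : C(Y, X)) : C(X, Cone i) :=
  ⟨fun x => ⟨(x, 0), Or.inl rfl⟩, (continuous_id.prodMk continuous_const).subtype_mk _⟩

def cY (i : C(Y, X)) : C(Y × ℝ≥0, Cone i) :=
  ⟨fun z => ⟨(i z.1, z.2), Or.inr ⟨z.1, rfl⟩⟩,
    ((i.continuous.comp continuous_fst).prodMk continuous_snd).subtype_mk _⟩

def cJ (i : C(Y, X)) (j : C(U, X)) : C(U, Cone i) := (c0 i).comp j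

def cK (i : C(Y, X)) : C(Y × ℝ, Cone i) := (cY i).comp ((ContinuousMap.id Y).prodMap ex)

/-- The bottom of the half cylinder. -/
def b0 (T : Type) [TopologicalSpace T] : C(T, T × ℝ≥0) :=
  ⟨fun x => (x, 0), continuous_id.prodMk continuous_const⟩

theorem b0_closed (T : Type) [TopologicalSpace T] : IsClosedEmbedding (b0 T) := by
  refine ⟨Function.LeftInverse.isEmbedding (f := Prod.fst) (fun _ => rfl) continuous_fst
    (b0 T).continuous, ?_⟩
  have : range (b0 T) = Prod.snd ⁻¹' {0} :=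
    Set.ext fun z => ⟨by rintro ⟨t, rfl⟩; rfl, fun e => ⟨z.1, Prod.ext rfl e.symm⟩⟩
  rw [this]
  exact isClosed_singleton.preimage continuous_snd

theorem cv_emb (i : C(Y, X)) : IsEmbedding (cv i) := IsEmbedding.subtypeVal

theorem cv_closed {i : C(Y, X)} (hi : IsClosedEmbedding i) : IsClosedEmbedding (cv i) :=
  IsClosed.isClosedEmbedding_subtypeVal ((isClosed_singleton.preimage continuous_snd).union
    (hi.isClosed_range.preimage continuous_fst))

theorem c0_closed (i : C(Y, X)) : IsClosedEmbedding (c0 i) :=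
  IsClosedEmbedding.of_comp (cv_emb i) (b0_closed X)

theorem cY_closed {i : C(Y, X)} (hi : IsClosedEmbedding i) : IsClosedEmbedding (cY i) :=
  IsClosedEmbedding.of_comp (cv_emb i) (hi.prodMap IsClosedEmbedding.id)

theorem pJ {i : C(Y, X)} {j : C(U, X)} (P : Pair i j) : Pair (cY i) (cJ i j) := by
  have e : range (cJ i j) = (range (cY i))ᶜ := by
    ext z
    constructor
    · rintro ⟨u, rfl⟩ ⟨y, hy⟩
      have : j u ∈ (range i)ᶜ := P.co ▸ mem_range_self u
      exact this ⟨y.1, congrArg (fun w : Cone i => w.1.1) hy⟩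
    · intro hz
      have h1 : z.1.1 ∉ range i := fun ⟨y, hy⟩ => hz ⟨(y, z.1.2), Subtype.ext (Prod.ext hy rfl)⟩
      obtain ⟨u, hu⟩ : z.1.1 ∈ range j := P.co ▸ h1
      exact ⟨u, Subtype.ext (Prod.ext hu (z.2.resolve_right h1).symm)⟩
  exact ⟨cY_closed P.cl, ⟨(c0_closed i).isEmbedding.comp P.op.isEmbedding,
    e ▸ (cY_closed P.cl).isClosed_range.isOpen_compl⟩, e⟩

theorem pK {i : C(Y, X)} (hi : IsClosedEmbedding i) : Pair (c0 i) (cK i) := by
  have e : range (cK i) = (range (c0 i))ᶜ := by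
    ext z
    constructor
    · rintro ⟨u, rfl⟩ ⟨y, hy⟩
      exact ex_ne u.2 (congrArg (fun w : Cone i => w.1.2) hy).symm
    · intro hz
      have h1 : z.1.2 ≠ 0 := fun e => hz ⟨z.1.1, Subtype.ext (Prod.ext rfl e.symm)⟩
      obtain ⟨y, hy⟩ := z.2.resolve_left h1
      obtain ⟨t, ht⟩ := ex_surj h1
      exact ⟨(y, t), Subtype.ext (Prod.ext hy ht)⟩
  exact ⟨c0_closed i, ⟨(cY_closed hi).isEmbedding.comp (IsEmbedding.id.prodMap ex_open.isEmbedding),
    e ▸ (c0_closed i).isClosed_range.isOpen_compl⟩, e⟩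

theorem pR {i : C(Y, X)} {j : C(U, X)} (P : Pair i j) : Pair (xR i) (xR j) := by
  refine ⟨P.cl.prodMap IsClosedEmbedding.id, P.op.prodMap IsOpenEmbedding.id, ?_⟩
  ext z
  constructor
  · rintro ⟨u, rfl⟩ ⟨y, hy⟩
    have : j u.1 ∈ (range i)ᶜ := P.co ▸ mem_range_self u.1
    exact this ⟨y.1, congrArg Prod.fst hy⟩
  · intro hz
    have h1 : z.1 ∉ range i := fun ⟨y, hy⟩ => hz ⟨(y, z.2), Prod.ext hy rfl⟩
    obtain ⟨u, hu⟩ : z.1 ∈ range j := P.co ▸ h1
    exact ⟨(u, z.2), Prod.ext hu rfl⟩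

/-- The plane as a complex line. -/
def pl (Y : Type) [TopologicalSpace Y] : C((Y × ℝ) × ℝ, ℂ) :=
  ⟨fun z => (z.1.2 : ℂ) + (z.2 : ℂ) * Complex.I, by fun_prop⟩

def p2 (Y : Type) [TopologicalSpace Y] : C((Y × ℝ) × ℝ, Y) := ⟨fun z => z.1.1, by fun_prop⟩

theorem pl_tot (Y : Type) [TopologicalSpace Y] : IsTot (Bun.triv Y FD.C) (p2 Y) (pl Y) := by
  refine ⟨Function.LeftInverse.isEmbedding (f := fun z : Y × ℂ => ((z.1, z.2.re), z.2.im))
    (fun z => by simp [p2, pl]) (by fun_prop) ((p2 Y).continuous.prodMk (pl Y).continuous), ?_⟩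
  ext z
  exact ⟨fun _ => rfl, fun _ => ⟨((z.1, z.2.re), z.2.im), Prod.ext rfl (Complex.re_add_im z.2)⟩⟩

variable [C : Fact Core]

theorem half_zero (A : Api) (T : Type) [TopologicalSpace T] (x : h (T × ℝ≥0)) : x = 0 := by
  induction x using h_ind with | _ c hc => ?_
  obtain ⟨a, ha⟩ := (hc.cpt.image (continuous_snd.comp continuous_fst)).bddAbove
  have hp : IsProperMap fun z : ℝ≥0 × unitInterval => z.1 + (a + 1) * unitInterval.toNNReal z.2 := by
    have hc : Continuous fun z : ℝ≥0 × unitInterval =>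
        z.1 + (a + 1) * unitInterval.toNNReal z.2 := by fun_prop
    refine isProperMap_iff_isCompact_preimage.2 ⟨hc, fun K hK => ?_⟩
    obtain ⟨b, hb⟩ := hK.bddAbove
    refine ((isCompact_Icc (a := 0) (b := b)).prod isCompact_univ).of_isClosed_subset
      (hK.isClosed.preimage hc) fun z hz => ⟨⟨zero_le, le_self_add.trans (hb hz)⟩, trivial⟩
  have hF : IsProperMap fun z : (T × ℝ≥0) × unitInterval =>
      (z.1.1, z.1.2 + (a + 1) * unitInterval.toNNReal z.2) := (isProperMap_id.prodMap hp).comp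
    (Homeomorph.prodAssoc T ℝ≥0 unitInterval).isProperMap
  let g : C(T × ℝ≥0, T × ℝ≥0) := ⟨fun z => (z.1, z.2 + (a + 1)), by fun_prop⟩
  have hg : IsProperMap g := by
    have : IsProperMap fun z : T × ℝ≥0 => (z, (1 : unitInterval)) :=
      (IsClosedEmbedding.mk (isEmbedding_prodMkLeft _) (by
        have : (range fun z : T × ℝ≥0 => (z, (1 : unitInterval))) = Prod.snd ⁻¹' {1} :=
          Set.ext fun z => ⟨by rintro ⟨t, rfl⟩; rfl, fun e => ⟨z.1, Prod.ext rfl e.symm⟩⟩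
        rw [this]
        exact isClosed_singleton.preimage continuous_snd)).isProperMap
    convert hF.comp this using 1
    funext z
    simp [g]
  have e := A.fn.htpy ⟨_, hF.continuous⟩ (ContinuousMap.id _) g hF (fun z => by simp)
    (fun z => by simp [g]) (cls c)
  rw [pull_id, pull_cls hg hc] at e
  rw [e]
  refine cls_empty (C.out.good1.pull hc hg) (eq_empty_of_forall_notMem fun z hz => ?_)
  have h1 : z.1.2 + (a + 1) ≤ a := ha ⟨(g z.1, z.2), hz, rfl⟩
  exact absurd (le_add_self.trans h1) (not_le.2 (lt_add_one a))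

theorem mvh (mv : S_MV0) {N M G T : Type} [TopologicalSpace N] [TopologicalSpace M]
    [TopologicalSpace G] [TopologicalSpace T] [T2Space N] [LocallyCompactSpace N] (i : C(M, N))
    (j : C(G, N)) (k : C(T, M)) (l : C(T, G)) (hi : IsClosedEmbedding i) (hj : IsOpenEmbedding j)
    (hk : IsOpenEmbedding k) (hl : IsClosedEmbedding l) (h1 : range i ∪ range j = univ)
    (h2 : ∀ t, i (k t) = j (l t)) (h3 : ∀ m, i m ∈ range j → m ∈ range k) (x : h N) (y : h T)
    (e : pull i x = push k y) : ∃ z, push j z = x ∧ pull l z = y := by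
  induction x using h_ind with | _ c hc => ?_
  induction y using h_ind with | _ y hy => ?_
  rw [pull_cls hi.isProperMap hc, push_cls hk hy] at e
  obtain ⟨c', hc', e1, e2⟩ := mv i j k l hi hj hk hl h1 h2 h3 c y hc hy e
  exact ⟨cls c', (push_cls hj hc').trans e1, (pull_cls hl.isProperMap hc').trans e2⟩

theorem ex1 (A : Api) (mv : S_MV0) [T2Space X] [LocallyCompactSpace X] {i : C(Y, X)} {j : C(U, X)}
    (P : Pair i j) : Function.Exact (push j) (pull i) := by
  let k : C(Empty, Y) := ⟨Empty.elim, continuous_of_discreteTopology⟩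
  let l : C(Empty, U) := ⟨Empty.elim, continuous_of_discreteTopology⟩
  have hk : IsOpenEmbedding k := IsOpenEmbedding.of_isEmpty _
  have h3 : ∀ m, i m ∈ range j → m ∈ range k := fun m hm =>
    ((P.co ▸ hm : i m ∈ (range i)ᶜ) (mem_range_self m)).elim
  intro x
  constructor
  · intro hx
    obtain ⟨z, hz, -⟩ := mvh mv i j k l P.cl P.op hk ⟨IsEmbedding.of_subsingleton _, by rw [range_eq_empty]; exact isClosed_empty⟩
      (by rw [P.co, union_compl_self]) (fun t => t.elim) h3 x 0 (by rw [hx, map_zero])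
    exact ⟨z, hz⟩
  · rintro ⟨y, rfl⟩
    rw [(A.fn.bc i j k l P.cl.isProperMap P.op hk (fun t => t.elim) h3).2,
      A.fn.empty (pull l y), map_zero]

theorem cJ_bij (A : Api) (mv : S_MV0) [T2Space X] [LocallyCompactSpace X] {i : C(Y, X)}
    {j : C(U, X)} (P : Pair i j) : Function.Bijective (push (cJ i j)) := by
  have := (cv_emb i).t2Space
  have := (cv_closed P.cl).locallyCompactSpace
  refine ⟨(injective_iff_map_eq_zero _).2 fun y hy => ?_,
    fun x => (ex1 A mv (pJ P) x).1 (half_zero A _ _)⟩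
  obtain ⟨z, -, hz⟩ := mvh mv (cv i) (j.prodMap (ContinuousMap.id ℝ≥0)) (cJ i j) (b0 U)
    (cv_closed P.cl) (P.op.prodMap IsOpenEmbedding.id) (pJ P).op (b0_closed U)
    (eq_univ_of_forall fun z => by
      by_cases hz : z.1 ∈ range i
      · exact Or.inl ⟨⟨z, Or.inr hz⟩, rfl⟩
      · obtain ⟨u, hu⟩ : z.1 ∈ range j := P.co ▸ hz
        exact Or.inr ⟨(u, z.2), Prod.ext hu rfl⟩) (fun _ => rfl)
    (fun m ⟨u, hu⟩ => by
      rw [(pJ P).co]
      rintro ⟨y, rfl⟩
      have : j u.1 ∈ (range i)ᶜ := P.co ▸ mem_range_self u.1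
      exact this ⟨y.1, (congrArg Prod.fst hu).symm⟩) 0 y (by rw [hy, map_zero])
  rw [← hz, half_zero A _ z, map_zero]

open Classical in
/-- The connecting map in odd degrees. -/
def d1 (i : C(Y, X)) (j : C(U, X)) : h (Y × ℝ) →+ h U :=
  if hb : Function.Bijective (push (cJ i j)) then
    (AddEquiv.ofBijective _ hb).symm.toAddMonoidHom.comp (push (cK i)) else 0

theorem d1_spec {i : C(Y, X)} {j : C(U, X)} (hb : Function.Bijective (push (cJ i j)))
    (z : h (Y × ℝ)) : push (cJ i j) (d1 i j z) = push (cK i) z := by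
  rw [d1, dif_pos hb]
  exact (AddEquiv.ofBijective _ hb).apply_symm_apply _

theorem ex3 (A : Api) (mv : S_MV0) [T2Space X] [LocallyCompactSpace X] {i : C(Y, X)} {j : C(U, X)}
    (P : Pair i j) : Function.Exact (d1 i j) (push j) := by
  have := (cv_emb i).t2Space
  have := (cv_closed P.cl).locallyCompactSpace
  have hb := cJ_bij A mv P
  intro y
  have e := (A.fn.bc (c0 i) (cJ i j) j (ContinuousMap.id U) (c0_closed i).isProperMap (pJ P).op P.op
    (fun _ => rfl) (fun x ⟨u, hu⟩ => ⟨u, congrArg (fun w : Cone i => w.1.1) hu⟩)).2 y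
  rw [pull_id] at e
  rw [← e, ex1 A mv (pK P.cl)]
  exact ⟨fun ⟨z, hz⟩ => ⟨z, hb.1 ((d1_spec hb z).trans hz)⟩,
    fun ⟨z, hz⟩ => ⟨z, by rw [← hz, d1_spec hb]⟩⟩

theorem ex2 (A : Api) (mv : S_MV0) [T2Space X] [LocallyCompactSpace X] {i : C(Y, X)} {j : C(U, X)}
    (P : Pair i j) : Function.Exact (pull (xR i)) (d1 i j) := by
  have hb := cJ_bij A mv P
  have ho : IsOpenEmbedding ((ContinuousMap.id X).prodMap ex) := IsOpenEmbedding.id.prodMap ex_open
  have h3 : ∀ m, cv i m ∈ range ((ContinuousMap.id X).prodMap ex) → m ∈ range (cK i) :=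
    fun m ⟨u, hu⟩ => by
      rw [(pK P.cl).co]
      rintro ⟨x, rfl⟩
      exact ex_ne u.2 (congrArg Prod.snd hu)
  intro y
  constructor
  · intro hy
    obtain ⟨z, -, hz⟩ := mvh mv (cv i) ((ContinuousMap.id X).prodMap ex) (cK i) (xR i)
      (cv_closed P.cl) ho (pK P.cl).op (pR P).cl
      (eq_univ_of_forall fun z => by
        by_cases hz : z.2 = 0
        · exact Or.inl ⟨⟨z, Or.inl hz⟩, rfl⟩
        · obtain ⟨t, ht⟩ := ex_surj hz
          exact Or.inr ⟨(z.1, t), Prod.ext rfl ht⟩) (fun _ => rfl) h3 0 y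
      (by rw [← d1_spec hb, hy, map_zero, map_zero])
    exact ⟨z, hz⟩
  · rintro ⟨z, rfl⟩
    refine hb.1 ?_
    rw [d1_spec hb, ← (A.fn.bc (cv i) _ (cK i) (xR i) (cv_closed P.cl).isProperMap ho (pK P.cl).op
      (fun _ => rfl) h3).2, half_zero A _ (push _ z), map_zero, map_zero]

theorem d1_nat (A : Api) (mv : S_MV0) {X' Y' U' : Type} [TopologicalSpace X'] [TopologicalSpace Y']
    [TopologicalSpace U'] [T2Space X] [LocallyCompactSpace X] [T2Space X'] [LocallyCompactSpace X']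
    {i : C(Y, X)} {j : C(U, X)} {i' : C(Y', X')} {j' : C(U', X')} {f : C(X', X)} {fY : C(Y', Y)}
    {fU : C(U', U)} (P : Pair i j) (P' : Pair i' j') (hf : IsProperMap f)
    (hY : ∀ y, i (fY y) = f (i' y)) (hU : ∀ u, j (fU u) = f (j' u)) (z : h (Y × ℝ)) :
    d1 i' j' (pull (xR fY) z) = pull fU (d1 i j z) := by
  let F : C(Cone i', Cone i) := ⟨fun w => ⟨(f w.1.1, w.1.2), w.2.imp id fun ⟨y, hy⟩ =>
    ⟨fY y, (hY y).trans (congrArg f hy)⟩⟩, ((f.continuous.comp (continuous_fst.comp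
      continuous_subtype_val)).prodMk (continuous_snd.comp continuous_subtype_val)).subtype_mk _⟩
  have hF : IsProperMap F := isProperMap_of_comp_of_inj F.continuous (cv i).continuous
    ((hf.prodMap isProperMap_id).comp (cv_closed P'.cl).isProperMap) (cv_emb i).injective
  have e1 := (A.fn.bc F (cJ i j) (cJ i' j') fU hF (pJ P).op (pJ P').op
    (fun u => Subtype.ext (Prod.ext (hU u) rfl)) fun w hw => by
      rw [(pJ P).co] at hw
      rw [(pJ P').co]
      rintro ⟨y, rfl⟩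
      exact hw ⟨(fY y.1, y.2), Subtype.ext (Prod.ext (hY y.1) rfl)⟩).2
  have e2 := (A.fn.bc F (cK i) (cK i') (xR fY) hF (pK P.cl).op (pK P'.cl).op
    (fun u => Subtype.ext (Prod.ext (hY u.1) rfl)) fun w hw => by
      rw [(pK P.cl).co] at hw
      rw [(pK P'.cl).co]
      rintro ⟨x, rfl⟩
      exact hw ⟨f x, rfl⟩).2
  refine (cJ_bij A mv P').1 ?_
  rw [d1_spec (cJ_bij A mv P'), ← e1, ← e2, d1_spec (cJ_bij A mv P)]

theorem d1_lin (A : Api) {K : Type} [TopologicalSpace K] [CompactSpace K] [T2Space K] {i : C(Y, X)}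
    {j : C(U, X)} (hb : Function.Bijective (push (cJ i j))) (f : C(X, K)) (a : h K)
    (z : h (Y × ℝ)) :
    d1 i j (act ((f.comp i).comp ContinuousMap.fst) a z) = act (f.comp j) a (d1 i j z) := by
  have e1 := (A.act.push (f.comp (ContinuousMap.fst.comp (cv i))) (cJ i j) a).1 (d1 i j z)
  have e2 := (A.act.push (f.comp (ContinuousMap.fst.comp (cv i))) (cK i) a).1 z
  refine hb.1 ((d1_spec hb _).trans (e2.trans ?_))
  rw [← d1_spec hb z]
  exact e1.symm

theorem d1_deg (A : Api) {i : C(Y, X)} {j : C(U, X)} (hb : Function.Bijective (push (cJ i j)))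
    (d : ℤ) (z : h (Y × ℝ)) (hz : IsDeg d z) : IsDeg d (d1 i j z) := by
  refine hb.1 ?_
  rw [← A.deg.push, d1_spec hb, A.deg.push, hz]

/-- The periodicity map. -/
def bott (Y : Type) [TopologicalSpace Y] : h Y →+ h ((Y × ℝ) × ℝ) :=
  twist (p2 Y) ((Bun.triv Y FD.C).pull (p2 Y)) (pl Y)

theorem bott_nat (A : Api) (t : S_Thom) {Y' : Type} [TopologicalSpace Y'] {f : C(Y', Y)}
    (hf : IsProperMap f) (y : h Y) : bott Y' (pull f y) = pull (xR (xR f)) (bott Y y) :=
  ((A.tw.twist_pull _ _ _ f (t _ _ _ (pl_tot Y')).1 hf).2 y).trans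
    ((A.tw.pull_twist _ _ _ (xR (xR f)) (t _ _ _ (pl_tot Y)).1
      ((hf.prodMap isProperMap_id).prodMap isProperMap_id)).2 y).symm

/-- The connecting map. -/
def del (i : C(Y, X)) (j : C(U, X)) : H Y →+ H U :=
  ((d1 i j).comp (AddMonoidHom.snd _ _)).prod
    (((d1 (xR i) (xR j)).comp (bott Y)).comp (AddMonoidHom.fst _ _))

theorem les (A : Api) (mv : S_MV0) (t : S_Thom) : S_LES := by
  refine ⟨fun i j => del i j, ?_, ?_, ?_, ?_⟩
  · intro X Y U _ _ _ _ _ i j P
    have bX : Function.Bijective (bott X) := (t _ _ _ (pl_tot X)).2.1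
    have bY : Function.Bijective (bott Y) := (t _ _ _ (pl_tot Y)).2.1
    refine ⟨fun x => ⟨fun hx => ?_, ?_⟩, fun y => ⟨fun hy => ?_, ?_⟩, fun u => ⟨fun hu => ?_, ?_⟩⟩
    · obtain ⟨a, ha⟩ := (ex1 A mv P x.1).1 (congrArg Prod.fst hx)
      obtain ⟨b, hb⟩ := (ex1 A mv (pR P) x.2).1 (congrArg Prod.snd hx)
      exact ⟨(a, b), Prod.ext ha hb⟩
    · rintro ⟨u, rfl⟩
      exact Prod.ext ((ex1 A mv P).apply_apply_eq_zero u.1)
        ((ex1 A mv (pR P)).apply_apply_eq_zero u.2)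
    · obtain ⟨a, ha⟩ := (ex2 A mv (pR P) (bott Y y.1)).1 (congrArg Prod.snd hy)
      obtain ⟨b, hb⟩ := (ex2 A mv P y.2).1 (congrArg Prod.fst hy)
      obtain ⟨a, rfl⟩ := bX.2 a
      exact ⟨(a, b), Prod.ext (bY.1 ((bott_nat A t P.cl.isProperMap a).trans ha)) hb⟩
    · rintro ⟨x, rfl⟩
      exact Prod.ext ((ex2 A mv P).apply_apply_eq_zero x.2)
        ((congrArg (d1 (xR i) (xR j)) (bott_nat A t P.cl.isProperMap x.1)).trans
          ((ex2 A mv (pR P)).apply_apply_eq_zero _))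
    · obtain ⟨a, ha⟩ := (ex3 A mv P u.1).1 (congrArg Prod.fst hu)
      obtain ⟨b, hb⟩ := (ex3 A mv (pR P) u.2).1 (congrArg Prod.snd hu)
      obtain ⟨b, rfl⟩ := bY.2 b
      exact ⟨(b, a), Prod.ext ha hb⟩
    · rintro ⟨y, rfl⟩
      exact Prod.ext ((ex3 A mv P).apply_apply_eq_zero _) ((ex3 A mv (pR P)).apply_apply_eq_zero _)
  · intro X Y U X' Y' U' _ _ _ _ _ _ _ _ _ _ i j i' j' f fY fU P P' hf hY hU y
    have hfY : IsProperMap fY := isProperMap_of_comp_of_inj fY.continuous i.continuous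
      ((funext hY : i ∘ fY = f ∘ i') ▸ hf.comp P'.cl.isProperMap) P.cl.injective
    exact Prod.ext (d1_nat A mv P P' hf hY hU y.2)
      ((congrArg (d1 (xR i') (xR j')) (bott_nat A t hfY y.1)).trans
        (d1_nat A mv (f := xR f) (fY := xR fY) (fU := xR fU) (pR P) (pR P') (hf.prodMap isProperMap_id)
          (fun z => Prod.ext (hY z.1) rfl) (fun z => Prod.ext (hU z.1) rfl) _))
  · intro X Y U K _ _ _ _ _ _ _ _ i j f P a y
    exact Prod.ext (d1_lin A (cJ_bij A mv P) f a y.2)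
      ((congrArg (d1 (xR i) (xR j)) ((A.act.twist (f.comp i) (p2 Y)
        ((Bun.triv Y FD.C).pull (p2 Y)) (pl Y) a).1 y.1)).trans
        (d1_lin A (cJ_bij A mv (pR P)) (f.comp ContinuousMap.fst) a _))
  · intro X Y U _ _ _ _ _ i j P d e y hy
    refine ⟨d1_deg A (cJ_bij A mv P) e y.2 hy.2, d1_deg A (cJ_bij A mv (pR P)) (d + 1) _ ?_⟩
    have := A.deg.twist (p2 Y) ((Bun.triv Y FD.C).pull (p2 Y)) (pl Y) 1
      (fun x => (A.bun.rk_triv Y FD.C (p2 Y x)).trans (Module.finrank_self ℂ)) d y.1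
    rw [hy.1] at this
    exact this

end

end Pool.Agent.MP_826def_gt.K82
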